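import Pool.Agent.OH246.Extend
import Pool.Agent.OH246.ModelExists
import Pool.Agent.OH246.Core

/-!
# `OH` is completely isometric to a subspace of the predual of a von Neumann algebra

The operator space structures are given by their matrix norms:

* `OH = K`, a separable infinite dimensional Hilbert space, with
  `‖[ξ_{ij}]‖ = ‖∑_p x_p ⊗ conj x_p‖^{1/2}`, `x_p = [⟪e_p, ξ_{ij}⟫]` for an orthonormal basis `e_p`;
* `M_n(M_*) ⊆ M_n(M^*) = CB(M, M_n)`.
-/

open scoped BigOperators InnerProductSpace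

noncomputable section

namespace Pool.Agent.Results.MP_246e44_an.OHInPredual

open scoped Matrix.Norms.L2Operator in
/-- Operator norm (with respect to the `ℓ²`-norms) of a complex square matrix. -/
def opNorm {I : Type} [Fintype I] [DecidableEq I] (A : Matrix I I ℂ) : ℝ := ‖A‖

/-- The norm of `[ξ_{ij}]` in `M_n(OH)`, where `OH` is a Hilbert space `K` with its `OH` operator
space structure: the square root of the operator norm of the matrix `∑_p x_p ⊗ conj x_p`, where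
`x_p = [⟪e_p, ξ_{ij}⟫]` for an orthonormal basis `e_p` of `K`; its `((i,k),(j,l))` entry is
`∑_p ⟪e_p, ξ_{ij}⟫ conj ⟪e_p, ξ_{kl}⟫ = ⟪ξ_{kl}, ξ_{ij}⟫`. -/
def ohNorm {K : Type*} [NormedAddCommGroup K] [InnerProductSpace ℂ K] {n : ℕ}
    (ξ : Matrix (Fin n) (Fin n) K) : ℝ :=
  Real.sqrt (opNorm (Matrix.of fun (a b : Fin n × Fin n) => ⟪ξ a.2 b.2, ξ a.1 b.1⟫_ℂ))

section
variable {H : Type*} [NormedAddCommGroup H] [InnerProductSpace ℂ H] [CompleteSpace H]

/-- `f : M → ℂ` is an element of the predual `M_*` of the von Neumann algebra `M ⊆ B(H)`, that is,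
of the closure, in the norm of `M^*`, of the linear span of the functionals `T ↦ ⟪x, T y⟫`,
`x, y ∈ H`.  (Such an `f` is linear and bounded.) -/
def InPredual (M : VonNeumannAlgebra H) (f : M → ℂ) : Prop :=
  ∀ ε : ℝ, 0 < ε → ∃ (k : ℕ) (x y : Fin k → H), ∀ T : M,
    ‖f T - ∑ i, ⟪x i, (T : H →L[ℂ] H) (y i)⟫_ℂ‖ ≤ ε * ‖(T : H →L[ℂ] H)‖

/-- `T ∈ M_m(M)` has norm at most `1` as an operator on `H^m`. -/
def IsContraction (M : VonNeumannAlgebra H) {m : ℕ} (T : Matrix (Fin m) (Fin m) M) : Prop :=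
  ∀ x : Fin m → H, ∑ i, ‖∑ j, (T i j : H →L[ℂ] H) (x j)‖ ^ 2 ≤ ∑ j, ‖x j‖ ^ 2

/-- The numbers `‖[f_{ij}(T_{kl})]‖` with `T` in the unit ball of `M_m(M)`, `m ∈ ℕ`.  Their least
upper bound is the completely bounded norm of `T ↦ [f_{ij}(T)]`, `M → M_n`, that is, the norm of
`[f_{ij}]` in `M_n(M^*) = CB(M, M_n)`. -/
def cbValues (M : VonNeumannAlgebra H) {n : ℕ} (f : Matrix (Fin n) (Fin n) (M → ℂ)) : Set ℝ :=
  {r | ∃ (m : ℕ) (T : Matrix (Fin m) (Fin m) M), IsContraction M T ∧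
    r = opNorm (Matrix.of fun (a b : Fin n × Fin m) => f a.1 b.1 (T a.2 b.2))}

/-- `u` is a complete isometry from `K`, with its `OH` operator space structure, to the predual
`M_*`: `u` is linear, takes its values in `M_*`, and for all `n` and all `[ξ_{ij}] ∈ M_n(K)` the
norm of `[u ξ_{ij}]` in `M_n(M_*) ⊆ CB(M, M_n)` is the norm of `[ξ_{ij}]` in `M_n(OH)`. -/
def IsCompleteIsometry {K : Type*} [NormedAddCommGroup K] [InnerProductSpace ℂ K]
    (M : VonNeumannAlgebra H) (u : K → M → ℂ) : Prop :=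
  IsLinearMap ℂ u ∧ (∀ x : K, InPredual M (u x)) ∧
  ∀ (n : ℕ) (ξ : Matrix (Fin n) (Fin n) K), IsLUB (cbValues M (ξ.map u)) (ohNorm ξ)

private theorem opNorm_eq {I : Type} [Fintype I] [DecidableEq I] (A : Matrix I I ℂ) :
    opNorm A = OH246.opn A :=
  (Matrix.l2_opNorm_toEuclideanCLM A).symm

private theorem span_form (M : VonNeumannAlgebra H) (g : M.toStarSubalgebra →L[ℂ] ℂ)
    (hg : g ∈ Submodule.span ℂ {f : M.toStarSubalgebra →L[ℂ] ℂ |
      ∃ ξ η : H, ∀ T : M.toStarSubalgebra, f T = ⟪ξ, (T : H →L[ℂ] H) η⟫_ℂ}) :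
    ∃ (k : ℕ) (x y : Fin k → H), ∀ T : M.toStarSubalgebra,
      g T = ∑ i, ⟪x i, (T : H →L[ℂ] H) (y i)⟫_ℂ := by
  induction hg using Submodule.span_induction with
  | mem f hf =>
    obtain ⟨ξ, η, h⟩ := hf
    exact ⟨1, fun _ => ξ, fun _ => η, fun T => by simp [h T]⟩
  | zero => exact ⟨0, Fin.elim0, Fin.elim0, fun T => by simp⟩
  | add f g _ _ hf hg =>
    obtain ⟨k, x, y, h⟩ := hf
    obtain ⟨l, x', y', h'⟩ := hg
    refine ⟨k + l, Fin.append x x', Fin.append y y', fun T => ?_⟩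
    rw [ContinuousLinearMap.add_apply, h T, h' T, Fin.sum_univ_add]
    simp
  | smul c f _ hf =>
    obtain ⟨k, x, y, h⟩ := hf
    refine ⟨k, x, fun i => c • y i, fun T => ?_⟩
    rw [ContinuousLinearMap.smul_apply, h T, Finset.smul_sum]
    refine Finset.sum_congr rfl fun i _ => ?_
    rw [map_smul, inner_smul_right, smul_eq_mul]

private theorem inPredual_of_mem (M : VonNeumannAlgebra H) (g : M.toStarSubalgebra →L[ℂ] ℂ)
    (hg : g ∈ OH246.Predual M) : InPredual M fun T => g ⟨T.1, T.2⟩ := by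
  intro ε hε
  have h1 : g ∈ closure (Submodule.span ℂ {f : M.toStarSubalgebra →L[ℂ] ℂ |
      ∃ ξ η : H, ∀ T : M.toStarSubalgebra, f T = ⟪ξ, (T : H →L[ℂ] H) η⟫_ℂ} :
        Set (M.toStarSubalgebra →L[ℂ] ℂ)) := hg
  obtain ⟨f, hf, hfg⟩ := SeminormedAddCommGroup.mem_closure_iff.1 h1 ε hε
  obtain ⟨k, x, y, h⟩ := span_form M f hf
  refine ⟨k, x, y, fun T => ?_⟩
  have h2 := (g - f).le_opNorm ⟨T.1, T.2⟩
  rw [ContinuousLinearMap.sub_apply, h ⟨T.1, T.2⟩] at h2
  refine h2.trans ?_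
  exact mul_le_mul_of_nonneg_right hfg.le (norm_nonneg _)

end

/-- Let `K` be a separable infinite dimensional Hilbert space.  There are a von Neumann algebra `M`
and a complete isometry from `K`, with its `OH` operator space structure, to the predual `M_*`. -/
theorem result (K : Type*) [NormedAddCommGroup K] [InnerProductSpace ℂ K]
    (e : HilbertBasis ℕ ℂ K) :
    ∃ (H : Type) (_ : NormedAddCommGroup H) (_ : InnerProductSpace ℂ H) (_ : CompleteSpace H)
      (M : VonNeumannAlgebra H) (u : K → M → ℂ), IsCompleteIsometry M u := by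
  obtain ⟨H, i1, i2, i3, M, u, hu⟩ :=
    OH246.final_of_core (OH246.core_exists OH246.model_exists.some)
  refine ⟨H, i1, i2, i3, M,
    fun x T => (u (e.repr x) : M.toStarSubalgebra →L[ℂ] ℂ) ⟨T.1, T.2⟩, ⟨?_, ?_⟩, ?_, ?_⟩
  · intro x y
    funext T
    simp
  · intro c x
    funext T
    simp
  · intro x
    exact inPredual_of_mem M _ (u (e.repr x)).2
  · intro n ξ
    have h1 := hu n (ξ.map e.repr)
    have h2 : OH246.ohNorm (ξ.map e.repr) = ohNorm ξ := by
      unfold OH246.ohNorm ohNorm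
      rw [opNorm_eq]
      congr 2
      ext a b
      simp [LinearIsometryEquiv.inner_map_map]
    have h3 : OH246.cbSet M ((ξ.map e.repr).map fun x => (u x : M.toStarSubalgebra →L[ℂ] ℂ)) =
        cbValues M (ξ.map fun x T => (u (e.repr x) : M.toStarSubalgebra →L[ℂ] ℂ) ⟨T.1, T.2⟩) := by
      ext r
      constructor
      · rintro ⟨m, T, hT, rfl⟩
        refine ⟨m, T.map fun S => ⟨S.1, S.2⟩, hT, ?_⟩
        rw [opNorm_eq]
        rfl
      · rintro ⟨m, T, hT, rfl⟩
        refine ⟨m, T.map fun S => ⟨S.1, S.2⟩, hT, ?_⟩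
        rw [opNorm_eq]
        rfl
    rw [h2, h3] at h1
    exact h1

end Pool.Agent.Results.MP_246e44_an.OHInPredual
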